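import Pool.Agent.TH942.UL.Main
import Pool.Agent.TH942.Fin
import Pool.Agent.W187.S2.Phi

/-!
# The law with a cut-off of logarithmic order `ρ`
-/

set_option autoImplicit false

open MeasureTheory Filter Topology Set Classical
open Pool.Agent.W263.BSD Pool.Agent.W187.UR
open Pool.Agent.W189.ML

namespace Pool.Agent.TH942.UL

variable {a b : ℤ} {F : ℂ → ℂ} {α γ : ℝ}

/-- the local term -/
noncomputable def ut (a b : ℤ) (α γ T : ℝ) (p : ℕ) : ℝ :=
  if GoodPrime a b p then wt α γ (Real.log p / T) *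
    Real.log (((pointCount a b p : ℝ) + 1) / p) else 0

/-- the small primes -/
noncomputable def uf (a b : ℤ) (α γ T : ℝ) (p : ℕ) : ℝ :=
  if p < 25 ∧ GoodPrime a b p then wt α γ (Real.log p / T) *
    Real.log (((pointCount a b p : ℝ) + 1) / p) else 0

lemma ut_eq (α γ T : ℝ) (p : ℕ) :
    ut a b α γ T p = cf a b p * wt α γ (Real.log p / T) + uf a b α γ T p := by
  unfold ut uf cf
  by_cases hg : GoodPrime a b p
  · by_cases h25 : 25 ≤ p
    · have hS : p ∈ SS a b := ⟨hg, h25⟩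
      rw [if_pos hg, if_pos hS, if_neg (by omega), cc_eq_lp (by omega), add_zero]
      unfold Pool.Agent.W263.BSD.lp
      ring
    · have hS : p ∉ SS a b := fun h => h25 h.2
      rw [if_pos hg, if_neg hS, if_pos ⟨by omega, hg⟩, zero_mul, zero_add]
  · have hS : p ∉ SS a b := fun h => hg h.1
    rw [if_neg hg, if_neg hS, if_neg (fun h => hg h.2)]
    simp

lemma uf_zero (α γ T : ℝ) {p : ℕ} (hp : p ∉ Finset.range 25) : uf a b α γ T p = 0 := by
  rw [Finset.mem_range] at hp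
  unfold uf
  rw [if_neg (fun h => hp h.1)]

lemma Ok.wt_le_const (h : Ok α γ) {u : ℝ} (hu : 0 ≤ u) : |wt α γ u| ≤ Real.exp 1 + 1 := by
  have h1 := h.abs_wt_le hu (le_refl 0)
  rw [Real.exp_zero] at h1
  refine h1.trans ?_
  have h2 : Real.exp (-(9 / 10 * u * Real.exp (α * 0))) ≤ 1 := by
    apply Real.exp_le_one_iff.2
    have := Real.exp_pos (α * 0)
    have : 0 ≤ 9 / 10 * u * Real.exp (α * 0) := by positivity
    linarith
  calc (Real.exp 1 + 1) * Real.exp (-(9 / 10 * u * Real.exp (α * 0))) ≤ (Real.exp 1 + 1) * 1 := by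
        gcongr
    _ = _ := mul_one _

lemma uf_bound (a b : ℤ) : ∃ B : ℝ, 0 ≤ B ∧ ∀ α γ T : ℝ, Ok α γ → 0 < T →
    |∑ p ∈ Finset.range 25, uf a b α γ T p| ≤ B := by
  refine ⟨∑ p ∈ Finset.range 25, (Real.exp 1 + 1) *
    |Real.log (((pointCount a b p : ℝ) + 1) / p)|, by positivity, fun α γ T h hT => ?_⟩
  refine (Finset.abs_sum_le_sum_abs _ _).trans (Finset.sum_le_sum fun p _ => ?_)
  have hv : 0 ≤ Real.log p / T := by
    have := Real.log_natCast_nonneg p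
    positivity
  unfold uf
  split_ifs
  · rw [abs_mul]
    exact mul_le_mul_of_nonneg_right (h.wt_le_const hv) (abs_nonneg _)
  · rw [abs_zero]
    positivity

/-- **the law for the smooth part** -/
theorem um_law (hF : IsLSeries a b F) {m : ℕ} (hm : analyticOrderAt F 1 = m) (hγ : Real.pi < γ) :
    ∃ α₀ C : ℝ, 0 < α₀ ∧ ∀ α T : ℝ, 0 < α → α ≤ α₀ → 1 ≤ T → Real.exp (-T) ≤ α →
      |∑' p : ℕ, cf a b p * wt α γ (Real.log p / T) - m * Real.log T| ≤ C := by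
  obtain ⟨η, B, L, r₀, hL, hL2, -⟩ := Pool.Agent.W187.S2.phi_bel hF hm
  have E := eData a b
  have D := sdata E
  have hser : ∀ w : ℂ, 2 ≤ w.re → DifferentiableAt ℂ (ser (fun p : ℕ => Real.log p)
      (fun p : ℕ => if p ∈ SS a b then cc (Ap a b) p else 0)) w := fun w hw =>
    (ser_analytic (fun p => Real.log_natCast_nonneg p) (cf_sum a b)
      (by linarith : 1 < w.re)).differentiableAt
  obtain ⟨α₀, C, hα₀, hC⟩ := um_main D hser hγ hL hL2
  set α₁ : ℝ := min α₀ (2 / 5 / (γ + Real.pi)) with hα₁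
  have hpi := Real.pi_pos
  have hγπ : 0 < γ + Real.pi := by linarith
  refine ⟨α₁, C, lt_min hα₀ (by positivity), fun α T hα hα1 hT hαT => ?_⟩
  have h := hC α T hα (hα1.trans (min_le_left _ _)) hT hαT
  have hok : Ok α γ := ⟨hα, hγ, by
    have h1 := hα1.trans (min_le_right _ _)
    rwa [le_div_iff₀ hγπ] at h1⟩
  have hT0 : 0 < T := by linarith
  obtain ⟨bb, hb0, hb⟩ : ∃ b : ℝ, 0 ≤ b ∧ 2 * T ≤ 9 / 10 * Real.exp (α * b) := by
    refine ⟨(3 * T) / α, by positivity, ?_⟩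
    rw [mul_div_cancel₀ _ hα.ne']
    have := Real.add_one_le_exp (3 * T)
    linarith
  obtain ⟨-, hsum⟩ := um_eq D hok hT hb0 hb
  have hre : (um (fun p : ℕ => Real.log p) (fun p : ℕ => if p ∈ SS a b then cc (Ap a b) p else 0)
      α γ T).re = ∑' p : ℕ, cf a b p * wt α γ (Real.log p / T) := by
    unfold um
    rw [Complex.re_tsum hsum]
    refine tsum_congr fun p => ?_
    rw [Complex.re_ofReal_mul, ← hok.wt_eq_re]
    rfl
  have h2 : (∑' p : ℕ, cf a b p * wt α γ (Real.log p / T)) - m * Real.log T =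
      (um (fun p : ℕ => Real.log p) (fun p : ℕ => if p ∈ SS a b then cc (Ap a b) p else 0)
      α γ T - ((m : ℤ) : ℂ) * Real.log T).re := by
    rw [Complex.sub_re, hre]
    congr 1
    have : ((m : ℤ) : ℂ) * (Real.log T : ℂ) = ((m * Real.log T : ℝ) : ℂ) := by push_cast; rfl
    rw [this, Complex.ofReal_re]
  rw [h2]
  exact (Complex.abs_re_le_norm _).trans h

lemma cfwt_summable (h : Ok α γ) {T : ℝ} (hT : 1 ≤ T) :
    Summable fun p : ℕ => cf a b p * wt α γ (Real.log p / T) := by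
  have E := eData a b
  have D := sdata E
  have hα := h.α0
  obtain ⟨bb, hb0, hb⟩ : ∃ b : ℝ, 0 ≤ b ∧ 2 * T ≤ 9 / 10 * Real.exp (α * b) := by
    refine ⟨(3 * T) / α, by positivity, ?_⟩
    rw [mul_div_cancel₀ _ hα.ne']
    have := Real.add_one_le_exp (3 * T)
    linarith
  obtain ⟨-, hsum⟩ := um_eq D h hT hb0 hb
  have h1 := (Complex.reCLM.hasSum hsum.hasSum).summable
  refine h1.congr fun p => ?_
  simp only [Complex.reCLM_apply]
  rw [Complex.re_ofReal_mul, ← h.wt_eq_re]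
  rfl

lemma ut_summable (h : Ok α γ) {T : ℝ} (hT : 1 ≤ T) : Summable (ut a b α γ T) := by
  have h1 := (cfwt_summable (a := a) (b := b) h hT).add
    (summable_of_ne_finset_zero fun p hp => uf_zero (a := a) (b := b) α γ T hp)
  exact h1.congr fun p => (ut_eq α γ T p).symm

lemma ut_tsum (h : Ok α γ) {T : ℝ} (hT : 1 ≤ T) : ∑' p, ut a b α γ T p =
    (∑' p : ℕ, cf a b p * wt α γ (Real.log p / T)) + ∑ p ∈ Finset.range 25, uf a b α γ T p := by
  simp only [ut_eq]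
  rw [(cfwt_summable (a := a) (b := b) h hT).tsum_add
    (summable_of_ne_finset_zero fun p hp => uf_zero (a := a) (b := b) α γ T hp),
    tsum_eq_sum fun p hp => uf_zero (a := a) (b := b) α γ T hp]

/-- **the tail of the sum** -/
lemma ut_tail (h : Ok α γ) {T : ℝ} (hT : 4 ≤ T) {p : ℕ} (hp : Real.exp (T ^ α⁻¹) < p) :
    |ut a b α γ T p| ≤ 12 * (p : ℝ) ^ (-(9 / 8) : ℝ) := by
  have hα := h.α0
  have hα15 := h.α_le
  have hT0 : 0 < T := by linarith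
  set ρ : ℝ := α⁻¹ with hρ
  have hρ15 : 15 ≤ ρ := by
    rw [hρ, le_inv_comm₀ (by norm_num) hα]
    linarith
  have hp0 : (0 : ℝ) < p := (Real.exp_pos _).trans hp
  have hTρ : 4 ≤ T ^ ρ := by
    calc (4 : ℝ) ≤ T := hT
      _ = T ^ (1 : ℝ) := (Real.rpow_one T).symm
      _ ≤ T ^ ρ := Real.rpow_le_rpow_of_exponent_le (by linarith) (by linarith)
  have h25 : 25 ≤ p := by
    have h1 : Real.exp 4 ≤ Real.exp (T ^ ρ) := Real.exp_le_exp.2 hTρ
    have h2 : (25 : ℝ) < Real.exp 4 := by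
      have h3 := Real.exp_one_gt_d9
      have h4 : Real.exp 4 = Real.exp 1 ^ 4 := by rw [← Real.exp_nat_mul]; norm_num
      rw [h4]
      nlinarith [sq_nonneg (Real.exp 1 - 2), sq_nonneg (Real.exp 1 ^ 2 - 5)]
    have h5 : (25 : ℝ) < p := by linarith
    have : 25 < p := by exact_mod_cast h5
    omega
  unfold ut
  split_ifs with hg
  swap
  · rw [abs_zero]
    positivity
  have hu : 0 ≤ Real.log p / T := div_nonneg (Real.log_natCast_nonneg p) hT0.le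
  set aa : ℝ := ρ * Real.log (3 / 4 * T) with haa
  have haa0 : 0 ≤ aa := mul_nonneg (by linarith) (Real.log_nonneg (by linarith))
  have h1 := h.abs_wt_le hu haa0
  have h2 : Real.exp (α * aa) = 3 / 4 * T := by
    rw [haa, ← mul_assoc, hρ, mul_inv_cancel₀ hα.ne', one_mul, Real.exp_log (by positivity)]
  have h3 : Real.exp aa = (3 / 4 : ℝ) ^ ρ * T ^ ρ := by
    rw [← Real.mul_rpow (by norm_num) hT0.le, Real.rpow_def_of_pos (by positivity), haa]
    congr 1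
    ring
  have h4 : (3 / 4 : ℝ) ^ ρ ≤ 1 / 40 := by
    calc (3 / 4 : ℝ) ^ ρ ≤ (3 / 4 : ℝ) ^ (15 : ℝ) :=
          Real.rpow_le_rpow_of_exponent_ge (by norm_num) (by norm_num) hρ15
      _ = (3 / 4 : ℝ) ^ (15 : ℕ) := by
          rw [← Real.rpow_natCast]; norm_num
      _ ≤ 1 / 40 := by norm_num
  have h5 : Real.exp aa ≤ T ^ ρ / 40 := by
    rw [h3]
    have : 0 ≤ T ^ ρ := by positivity
    nlinarith
  have h6 : Real.exp (-(9 / 10 * (Real.log p / T) * Real.exp (α * aa))) =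
      (p : ℝ) ^ (-(27 / 40) : ℝ) := by
    rw [h2, Real.rpow_def_of_pos hp0]
    congr 1
    field_simp
    ring
  rw [h6] at h1
  have h7 : Real.exp (Real.exp aa) + 1 ≤ 2 * Real.exp (T ^ ρ / 40) := by
    have e1 : Real.exp (Real.exp aa) ≤ Real.exp (T ^ ρ / 40) := Real.exp_le_exp.2 h5
    have e2 : 1 ≤ Real.exp (T ^ ρ / 40) := Real.one_le_exp (by linarith)
    linarith
  have h8 : (p : ℝ) ^ (-(1 / 20) : ℝ) ≤ Real.exp (-(T ^ ρ / 20)) := by
    rw [Real.rpow_def_of_pos hp0]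
    apply Real.exp_le_exp.2
    have h7 : T ^ ρ < Real.log p := by rwa [Real.lt_log_iff_exp_lt hp0]
    linarith
  have h9 := log_bound hg h25
  have h10 : (p : ℝ) ^ (-(1 / 2) : ℝ) * (p : ℝ) ^ (-(27 / 40) : ℝ) =
      (p : ℝ) ^ (-(1 / 20) : ℝ) * (p : ℝ) ^ (-(9 / 8) : ℝ) := by
    rw [← Real.rpow_add hp0, ← Real.rpow_add hp0]
    norm_num
  have h11 : Real.exp (T ^ ρ / 40) * Real.exp (-(T ^ ρ / 20)) ≤ 1 := by
    rw [← Real.exp_add]
    apply Real.exp_le_one_iff.2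
    linarith
  rw [abs_mul]
  calc |wt α γ (Real.log p / T)| * |Real.log (((pointCount a b p : ℝ) + 1) / p)| ≤
      ((2 * Real.exp (T ^ ρ / 40)) * (p : ℝ) ^ (-(27 / 40) : ℝ)) *
        (6 * (p : ℝ) ^ (-(1 / 2) : ℝ)) := by
        refine mul_le_mul (h1.trans ?_) h9 (abs_nonneg _) (by positivity)
        gcongr
    _ = 12 * Real.exp (T ^ ρ / 40) * ((p : ℝ) ^ (-(1 / 2) : ℝ) * (p : ℝ) ^ (-(27 / 40) : ℝ)) := by
        ring
    _ = 12 * Real.exp (T ^ ρ / 40) * ((p : ℝ) ^ (-(1 / 20) : ℝ) * (p : ℝ) ^ (-(9 / 8) : ℝ)) := by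
        rw [h10]
    _ ≤ 12 * Real.exp (T ^ ρ / 40) * (Real.exp (-(T ^ ρ / 20)) * (p : ℝ) ^ (-(9 / 8) : ℝ)) := by
        gcongr
    _ = 12 * (Real.exp (T ^ ρ / 40) * Real.exp (-(T ^ ρ / 20))) * (p : ℝ) ^ (-(9 / 8) : ℝ) := by
        ring
    _ ≤ 12 * 1 * (p : ℝ) ^ (-(9 / 8) : ℝ) := by gcongr
    _ = _ := by ring

/-- the finite sum -/
noncomputable def ufin (a b : ℤ) (α γ T : ℝ) : ℝ :=
  ∑ p ∈ (Finset.range (⌊Real.exp (T ^ α⁻¹)⌋₊ + 1)).filter (GoodPrime a b),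
    wt α γ (Real.log p / T) * Real.log (((pointCount a b p : ℝ) + 1) / p)

lemma ufin_eq (a b : ℤ) (α γ T : ℝ) :
    ufin a b α γ T = ∑ p ∈ Finset.range (⌊Real.exp (T ^ α⁻¹)⌋₊ + 1), ut a b α γ T p := by
  unfold ufin ut
  rw [Finset.sum_filter]

theorem ufin_close (a b : ℤ) : ∃ Z : ℝ, 0 ≤ Z ∧ ∀ α γ T : ℝ, Ok α γ → 4 ≤ T →
    |∑' p, ut a b α γ T p - ufin a b α γ T| ≤ Z := by
  have hZ : Summable fun p : ℕ => (p : ℝ) ^ (-(9 / 8) : ℝ) :=
    Real.summable_nat_rpow.mpr (by norm_num)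
  refine ⟨12 * ∑' p : ℕ, (p : ℝ) ^ (-(9 / 8) : ℝ), by positivity, fun α γ T h hT => ?_⟩
  have hs : Summable (ut a b α γ T) := ut_summable h (by linarith)
  set n := ⌊Real.exp (T ^ α⁻¹)⌋₊ + 1 with hn
  have h1 : ∑' p, ut a b α γ T p - ufin a b α γ T = ∑' p : ℕ, ut a b α γ T (p + n) := by
    rw [ufin_eq, ← hs.sum_add_tsum_nat_add n]
    ring
  rw [h1]
  have h2 : ∀ p : ℕ, ‖ut a b α γ T (p + n)‖ ≤ 12 * ((p + n : ℕ) : ℝ) ^ (-(9 / 8) : ℝ) := by
    intro p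
    rw [Real.norm_eq_abs]
    apply ut_tail h hT
    have h3 := Nat.lt_floor_add_one (Real.exp (T ^ α⁻¹))
    have h4 : ((n : ℕ) : ℝ) = (⌊Real.exp (T ^ α⁻¹)⌋₊ : ℝ) + 1 := by rw [hn]; push_cast; ring
    have h5 : ((p + n : ℕ) : ℝ) = p + n := by push_cast; ring
    rw [h5]
    have h6 : (0 : ℝ) ≤ p := Nat.cast_nonneg p
    linarith
  have h3 : Summable fun p : ℕ => ((p + n : ℕ) : ℝ) ^ (-(9 / 8) : ℝ) :=
    (summable_nat_add_iff n).2 hZ
  rw [← Real.norm_eq_abs]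
  refine (tsum_of_norm_bounded ((h3.hasSum).mul_left _) h2).trans ?_
  have h4 : ∑' p : ℕ, ((p + n : ℕ) : ℝ) ^ (-(9 / 8) : ℝ) ≤ ∑' p : ℕ, (p : ℝ) ^ (-(9 / 8) : ℝ) := by
    rw [← hZ.sum_add_tsum_nat_add n]
    have : 0 ≤ ∑ p ∈ Finset.range n, (p : ℝ) ^ (-(9 / 8) : ℝ) :=
      Finset.sum_nonneg fun p _ => by positivity
    linarith
  gcongr

/-- **The law**, uniformly in the order `ρ` of the cut-off. -/
theorem ufin_law (hF : IsLSeries a b F) {m : ℕ} (hm : analyticOrderAt F 1 = m) (hγ : Real.pi < γ) :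
    ∃ ρ₀ M : ℝ, 1 ≤ ρ₀ ∧ ∀ ρ T : ℝ, ρ₀ ≤ ρ → 4 ≤ T → ρ ≤ Real.exp T →
      |ufin a b ρ⁻¹ γ T - m * Real.log T| ≤ M := by
  obtain ⟨α₀, C, hα₀, hC⟩ := um_law hF hm hγ
  obtain ⟨B, hB0, hB⟩ := uf_bound a b
  obtain ⟨Z, hZ0, hZ⟩ := ufin_close a b
  have hpi := Real.pi_gt_three
  have hγπ : 0 < γ + Real.pi := by linarith
  refine ⟨max 1 (max α₀⁻¹ ((γ + Real.pi) / (2 / 5))), C + B + Z, le_max_left _ _,
    fun ρ T hρ hT hρT => ?_⟩
  have hρ1 : 1 ≤ ρ := (le_max_left _ _).trans hρ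
  have hρ0 : 0 < ρ := by linarith
  have hρ2 : α₀⁻¹ ≤ ρ := (le_max_left _ _).trans ((le_max_right _ _).trans hρ)
  have hρ3 : (γ + Real.pi) / (2 / 5) ≤ ρ := (le_max_right _ _).trans ((le_max_right _ _).trans hρ)
  have hα : 0 < ρ⁻¹ := by positivity
  have hok : Ok ρ⁻¹ γ := ⟨hα, hγ, by
    rw [div_le_iff₀ (by norm_num)] at hρ3
    rw [inv_mul_le_iff₀ hρ0]
    linarith⟩
  have h1 := hC ρ⁻¹ T hα (by rw [inv_le_comm₀ hρ0 hα₀]; exact hρ2) (by linarith) (by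
    rw [Real.exp_neg]
    exact inv_anti₀ hρ0 hρT)
  have h2 := hB ρ⁻¹ γ T hok (by linarith)
  have h3 := hZ ρ⁻¹ γ T hok hT
  rw [ut_tsum hok (by linarith)] at h3
  rw [abs_le] at h1 h2 h3 ⊢
  constructor <;> linarith [h1.1, h1.2, h2.1, h2.2, h3.1, h3.2]

end Pool.Agent.TH942.UL
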