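import Pool.Agent.TH942.UL.Wgt
import Pool.Agent.W187.UR.Stm

/-!
# The means with the weights of logarithmic order `ρ = 1/α`
-/

set_option autoImplicit false

open Complex MeasureTheory Filter Topology Set
open scoped Interval
open Pool.Agent.W189.ML Pool.Agent.W187.UR

namespace Pool.Agent.TH942.UL

variable {ι : Type} {lam : ι → ℝ} {c : ι → ℝ} {G : ℂ → ℂ} {α γ : ℝ}

/-- glueing of holomorphic functions along the line `Re w = 2` -/
noncomputable def glue (L g : ℂ → ℂ) (w : ℂ) : ℂ := if w.re ≤ 2 then L w else g w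

theorem glue_diff {L g : ℂ → ℂ} {w : ℂ} {U : Set ℝ} (hU : IsOpen U) (hwU : w.im ∈ U)
    (h1 : w.re ≤ 2 → DifferentiableAt ℂ L w) (h2 : 2 ≤ w.re → DifferentiableAt ℂ g w)
    (h3 : ∀ v : ℂ, v.re = 2 → v.im ∈ U → g v = L v) : DifferentiableAt ℂ (glue L g) w := by
  rcases lt_trichotomy w.re 2 with h | h | h
  · have ho : IsOpen {v : ℂ | v.re < 2} := isOpen_lt Complex.continuous_re continuous_const
    refine (h1 h.le).congr_of_eventuallyEq ?_
    filter_upwards [ho.mem_nhds h] with v hv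
    unfold glue
    rw [if_pos (le_of_lt hv)]
  · -- on the line
    have d1 := (h1 h.le).hasDerivAt
    have d2 := (h2 h.ge).hasDerivAt
    -- equality of the derivatives
    have hl : HasDerivAt (fun y : ℝ => w + y * I) I 0 := by
      have := ((hasDerivAt_id (0 : ℝ)).ofReal_comp.mul_const I).const_add w
      simpa using this
    have e0 : w + ((0 : ℝ) : ℂ) * I = w := by simp
    have c1 : HasDerivAt (fun y : ℝ => L (w + y * I)) (deriv L w * I) 0 := by
      have d1' : HasDerivAt L (deriv L w) (w + ((0 : ℝ) : ℂ) * I) := by rwa [e0]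
      exact d1'.comp 0 hl
    have c2 : HasDerivAt (fun y : ℝ => g (w + y * I)) (deriv g w * I) 0 := by
      have d2' : HasDerivAt g (deriv g w) (w + ((0 : ℝ) : ℂ) * I) := by rwa [e0]
      exact d2'.comp 0 hl
    have hev : ∀ᶠ y : ℝ in 𝓝 0, L (w + y * I) = g (w + y * I) := by
      have hc : Continuous fun y : ℝ => (w + y * I).im := by fun_prop
      have : ∀ᶠ y : ℝ in 𝓝 0, (w + y * I).im ∈ U :=
        hc.continuousAt.eventually (hU.mem_nhds (by simpa using hwU))
      filter_upwards [this] with y hy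
      exact (h3 _ (by simpa using h) hy).symm
    have c3 : HasDerivAt (fun y : ℝ => g (w + y * I)) (deriv L w * I) 0 :=
      c1.congr_of_eventuallyEq (hev.mono fun y hy => hy.symm)
    have e1 : deriv L w = deriv g w := by
      have := c3.unique c2
      exact mul_right_cancel₀ I_ne_zero this
    have w1 : HasDerivWithinAt (glue L g) (deriv L w) {v | v.re ≤ 2} w := by
      refine d1.hasDerivWithinAt.congr (fun v hv => ?_) ?_
      · unfold glue
        rw [if_pos (show v.re ≤ 2 from hv)]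
      · unfold glue
        rw [if_pos h.le]
    have w2 : HasDerivWithinAt (glue L g) (deriv L w) {v | 2 ≤ v.re} w := by
      rw [e1]
      refine d2.hasDerivWithinAt.congr_of_eventuallyEq ?_ ?_
      · have ho : ∀ᶠ v : ℂ in 𝓝 w, v.im ∈ U :=
          Complex.continuous_im.continuousAt.eventually (hU.mem_nhds hwU)
        filter_upwards [self_mem_nhdsWithin, ho.filter_mono nhdsWithin_le_nhds] with v hv hv2
        unfold glue
        split_ifs with h4
        · exact (h3 v (le_antisymm h4 hv) hv2).symm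
        · rfl
      · unfold glue
        rw [if_pos h.le, h3 w h hwU]
    have w3 := w1.union w2
    have e2 : {v : ℂ | v.re ≤ 2} ∪ {v | 2 ≤ v.re} = univ := by
      ext v
      simp [le_total]
    rw [e2, hasDerivWithinAt_univ] at w3
    exact w3.differentiableAt
  · have ho : IsOpen {v : ℂ | 2 < v.re} := isOpen_lt continuous_const Complex.continuous_re
    refine (h2 h.le).congr_of_eventuallyEq ?_
    filter_upwards [ho.mem_nhds h] with v hv
    unfold glue
    rw [if_neg (not_le.2 hv)]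

/-- the mean -/
noncomputable def um (lam c : ι → ℝ) (α γ T : ℝ) : ℂ := ∑' i, (c i : ℂ) * wc α γ (lam i / T)

theorem um_eq [Countable ι] (D : SData lam c G) (h : Ok α γ) {T b : ℝ} (hT : 1 ≤ T) (hb0 : 0 ≤ b)
    (hb : 2 * T ≤ 9 / 10 * Real.exp (α * b)) :
    J b (fun z => ser lam c (pw α γ z / T)) = um lam c α γ T ∧
    Summable (fun i => (c i : ℂ) * wc α γ (lam i / T)) := by
  have hT0 : (0 : ℝ) < T := by linarith
  have hTc : (T : ℂ) ≠ 0 := by exact_mod_cast hT0.ne'
  have hre : ∀ z ∈ HS b, 2 ≤ (pw α γ z / T).re := by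
    intro z hz
    have h1 : (pw α γ z / T).re = (pw α γ z).re / T := by simp
    rw [h1, le_div_iff₀ hT0]
    have h2 := h.re_ge hz
    have h3 : Real.exp (α * b) ≤ Real.exp (α * z.re) :=
      Real.exp_le_exp.2 (mul_le_mul_of_nonneg_left hz.1 h.α0.le)
    linarith
  have hpc := (pw_differentiable α γ).continuous
  have h1 := J_hasSum (a := b) hb0 (F := fun i z => (c i : ℂ) * exp (-(pw α γ z / T * lam i)))
    D.sum
    (fun i => ⟨by fun_prop, |c i| * Real.exp (-(2 * lam i)), 0, by positivity, le_rfl, fun z hz => by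
      have := D.term_le (hre z hz) i
      linarith⟩) fun i z hz => D.term_le (hre z hz) i
  have h2 : ∀ i, J b (fun z => (c i : ℂ) * exp (-(pw α γ z / T * lam i))) =
      (c i : ℂ) * wc α γ (lam i / T) := by
    intro i
    have hu : 0 ≤ lam i / T := div_nonneg (D.lam_pos i) hT0.le
    have e3 : (fun z : ℂ => (c i : ℂ) * exp (-(pw α γ z / T * lam i))) =
        fun z => (c i : ℂ) * exp (-(((lam i / T : ℝ) : ℂ) * pw α γ z)) := by
      funext z
      congr 2
      push_cast
      field_simp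
    rw [e3, J_const_mul, h.wc_eq hu hb0]
  simp only [h2] at h1
  exact ⟨h1.tsum_eq.symm, h1.summable⟩

lemma log_pw_div (h : Ok α γ) {T : ℝ} (hT : 0 < T) {z : ℂ} (hz : z ∈ HS 0) :
    log (pw α γ z / T) = α * (z - γ * I) - Real.log T := by
  have h1 : pw α γ z / T = ((T⁻¹ : ℝ) : ℂ) * exp (α * (z - γ * I)) := by
    unfold pw
    push_cast
    field_simp
  obtain ⟨-, h2, h3⟩ := h.angle hz
  have him : ((α : ℂ) * (z - γ * I)).im = -(α * (γ - z.im)) := by simp; ring
  have hpi := Real.pi_gt_three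
  rw [h1, Complex.log_ofReal_mul (by positivity) (Complex.exp_ne_zero _), Real.log_inv,
    Complex.log_exp (by rw [him]; linarith) (by rw [him]; linarith)]
  push_cast
  ring

lemma sig_log {σ : ℝ} (h0 : 0 < σ) (h1 : σ ≤ 3) : σ * |Real.log σ| ≤ 6 := by
  rcases le_total σ 1 with h | h
  · rw [abs_of_nonpos (Real.log_nonpos h0.le h)]
    have := Real.one_sub_inv_le_log_of_pos h0
    have h2 : σ * (-Real.log σ) ≤ σ * (σ⁻¹ - 1) := mul_le_mul_of_nonneg_left (by linarith) h0.le
    rw [mul_sub, mul_inv_cancel₀ h0.ne'] at h2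
    linarith
  · rw [abs_of_nonneg (Real.log_nonneg h)]
    have := Real.log_le_sub_one_of_pos h0
    have h3 := Real.log_nonneg h
    nlinarith

/-- geometry of the half strip -/
structure Geo (α γ T η : ℝ) : Prop where
  s1 : ∀ z ∈ HS 0, 9 / 10 * ‖pw α γ z / T‖ ≤ (pw α γ z / T).re
  sn : ∀ z : ℂ, ‖pw α γ z / T‖ = Real.exp (α * z.re) / T
  sn0 : ∀ z : ℂ, 0 < ‖pw α γ z / T‖
  s0 : ∀ z ∈ HS 0, 0 < (pw α γ z / T).re
  s2 : ∀ z ∈ HS 0, (pw α γ z / T).re ≤ 2 → ‖pw α γ z / T‖ ≤ 20 / 9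
  si : ∀ z ∈ HS 0, -(pw α γ z / T).im = ‖pw α γ z / T‖ * Real.sin (α * (γ - z.im))
  si0 : ∀ z ∈ HS 0, (pw α γ z / T).im < 0
  si1 : ∀ z ∈ HS 0, (pw α γ z / T).re ≤ 2 → -η < (pw α γ z / T).im

theorem geo (h : Ok α γ) {T η : ℝ} (hT0 : 0 < T)
    (hαg : α * (γ + Real.pi) ≤ 2 / 5 * η) : Geo α γ T η := by
  have hα0 := h.α0
  have hsre : ∀ z : ℂ, (pw α γ z / T).re = (pw α γ z).re / T := fun z => by simp
  have hsim : ∀ z : ℂ, (pw α γ z / T).im = (pw α γ z).im / T := fun z => by simp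
  have hsn : ∀ z : ℂ, ‖pw α γ z / T‖ = Real.exp (α * z.re) / T := fun z => by
    rw [norm_div, norm_pw, Complex.norm_real, Real.norm_eq_abs, abs_of_pos hT0]
  have hs1 : ∀ z ∈ HS 0, 9 / 10 * ‖pw α γ z / T‖ ≤ (pw α γ z / T).re := by
    intro z hz
    rw [hsn, hsre, ← mul_div_assoc]
    exact div_le_div_of_nonneg_right (h.re_ge hz) hT0.le
  have hsn0 : ∀ z : ℂ, 0 < ‖pw α γ z / T‖ := fun z => by rw [hsn]; positivity
  have hs0 : ∀ z ∈ HS 0, 0 < (pw α γ z / T).re := fun z hz => by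
    have := hs1 z hz
    have := hsn0 z
    linarith
  have hs2 : ∀ z ∈ HS 0, (pw α γ z / T).re ≤ 2 → ‖pw α γ z / T‖ ≤ 20 / 9 := fun z hz h1 => by
    have := hs1 z hz
    linarith
  have hsi : ∀ z ∈ HS 0, -(pw α γ z / T).im = ‖pw α γ z / T‖ * Real.sin (α * (γ - z.im)) :=
    fun z hz => by
    rw [hsim, hsn, pw_im]
    ring
  refine ⟨hs1, hsn, hsn0, hs0, hs2, hsi, fun z hz => ?_, fun z hz h1 => ?_⟩
  · obtain ⟨-, h2, h3⟩ := h.angle hz
    have h4 := sin_ge h2 h3
    have h5 := hsi z hz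
    have h6 := mul_pos (hsn0 z) (show 0 < Real.sin (α * (γ - z.im)) by linarith)
    linarith
  · obtain ⟨-, h2, h3⟩ := h.angle hz
    have h4 : Real.sin (α * (γ - z.im)) ≤ α * (γ - z.im) := Real.sin_le h2.le
    have h5 : α * (γ - z.im) ≤ 2 / 5 * η := by
      have e1 := (abs_le.1 hz.2).1
      have e2 : α * (γ - z.im) ≤ α * (γ + Real.pi) := mul_le_mul_of_nonneg_left (by linarith) hα0.le
      linarith
    have h6 := hsi z hz
    have h7 := hs2 z hz h1
    have h8 : ‖pw α γ z / T‖ * Real.sin (α * (γ - z.im)) ≤ 20 / 9 * (2 / 5 * η) :=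
      mul_le_mul h7 (h4.trans h5) (by linarith [sin_ge h2 h3]) (by norm_num)
    linarith

/-- the remainder, close to the center -/
theorem rem_near (h : Ok α γ) {T η B : ℝ} {m : ℤ} {r₀ : ℂ} {L : ℂ → ℂ} (hL : Bel m r₀ η B L)
    (hT1 : 1 ≤ T) (hαT : Real.exp (-T) ≤ α) (g : Geo α γ T η) {z : ℂ} (hz : z ∈ HS 0)
    (h1 : (pw α γ z / T).re ≤ 2) : ‖L (pw α γ z / T) - m * log (pw α γ z / T)‖ ≤
      3 * B * (7 + Real.exp (α * z.re) + 3 * |Real.log ((γ - Real.pi) / 2)|) + ‖r₀‖ := by
  have hα0 := h.α0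
  have hγ := h.γ0
  have hB := hL.hB
  have hx : 0 ≤ z.re := hz.1
  have hT0 : 0 < T := by linarith
  set c₁ : ℝ := |Real.log ((γ - Real.pi) / 2)| with hc₁
  have hc₁0 : 0 ≤ c₁ := abs_nonneg _
  set s : ℂ := pw α γ z / T with hs
  have hσ : 0 < ‖s‖ := g.sn0 z
  have hσT : ‖s‖ * T = Real.exp (α * z.re) := by rw [hs, g.sn]; field_simp
  have h2 : ‖s‖ ≤ 20 / 9 := g.s2 z hz h1
  obtain ⟨h3, h4, h5⟩ := h.angle hz
  have h6 := sin_ge h4 h5
  have h7 : Real.sin (α * (γ - z.im)) ≤ 1 := Real.sin_le_one _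
  have hb := hL.bound s (g.s0 z hz) h1 (g.si1 z hz h1).le (g.si0 z hz)
  have hsp : 0 < Real.sin (α * (γ - z.im)) := by linarith
  have hsi : -s.im = ‖s‖ * Real.sin (α * (γ - z.im)) := g.si z hz
  have hlg : |Real.log (-s.im)| ≤ |Real.log ‖s‖| + T + c₁ := by
    rw [hsi, Real.log_mul hσ.ne' hsp.ne']
    refine (abs_add_le _ _).trans ?_
    rw [add_assoc]
    refine add_le_add le_rfl ?_
    rw [abs_of_nonpos (Real.log_nonpos hsp.le h7)]
    have e1 : α * ((γ - Real.pi) / 2) ≤ Real.sin (α * (γ - z.im)) := by linarith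
    have e2 : 0 < (γ - Real.pi) / 2 := by linarith
    have e3 := Real.log_le_log (mul_pos hα0 e2) e1
    rw [Real.log_mul hα0.ne' e2.ne'] at e3
    have e4 : -T ≤ Real.log α := by
      rw [Real.le_log_iff_exp_le hα0]; exact hαT
    have e5 := neg_abs_le (Real.log ((γ - Real.pi) / 2))
    rw [← hc₁] at e5
    linarith
  have h8 := sig_log hσ (by linarith : ‖s‖ ≤ 3)
  have h9 : ‖s‖ * |Real.log (-s.im)| ≤ 6 + Real.exp (α * z.re) + 3 * c₁ := by
    calc ‖s‖ * |Real.log (-s.im)| ≤ ‖s‖ * (|Real.log ‖s‖| + T + c₁) := by gcongr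
      _ = ‖s‖ * |Real.log ‖s‖| + ‖s‖ * T + ‖s‖ * c₁ := by ring
      _ ≤ 6 + Real.exp (α * z.re) + 3 * c₁ := by
        rw [hσT]
        have : ‖s‖ * c₁ ≤ 3 * c₁ := mul_le_mul_of_nonneg_right (by linarith) hc₁0
        linarith
  have h10 : L s - m * log s = L s - m * log s - r₀ + r₀ := by ring
  rw [h10]
  refine (norm_add_le _ _).trans (add_le_add (hb.trans ?_) le_rfl)
  have e1 : 0 ≤ 1 + ‖s‖ * |Real.log (-s.im)| := by positivity
  calc B * ‖s‖ * (1 + ‖s‖ * |Real.log (-s.im)|) ≤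
      B * 3 * (1 + ‖s‖ * |Real.log (-s.im)|) := by
        gcongr
        linarith
    _ ≤ B * 3 * (1 + (6 + Real.exp (α * z.re) + 3 * c₁)) := by gcongr
    _ = _ := by ring

/-- the logarithm, far from the center -/
theorem log_far (h : Ok α γ) {T η : ℝ} (hT1 : 1 ≤ T) (g : Geo α γ T η) {z : ℂ} (hz : z ∈ HS 0)
    (h1 : 2 < (pw α γ z / T).re) : ‖log (pw α γ z / T)‖ ≤ z.re + 1 := by
  have hα0 := h.α0
  have hα15 := h.α_le
  have hx : 0 ≤ z.re := hz.1
  have hT0 : 0 < T := by linarith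
  have hσ := g.sn0 z
  have hσT : ‖pw α γ z / T‖ * T = Real.exp (α * z.re) := by rw [g.sn]; field_simp
  have hex : Real.exp (α * z.re) ≤ Real.exp z.re := Real.exp_le_exp.2 (by nlinarith)
  have e1 := Complex.norm_le_abs_re_add_abs_im (log (pw α γ z / T))
  rw [Complex.log_re] at e1
  have e2 : (log (pw α γ z / T)).im = -(α * (γ - z.im)) := by
    rw [log_pw_div h hT0 hz, Complex.sub_im, Complex.ofReal_im]
    simp
    ring
  obtain ⟨-, e3, e4⟩ := h.angle hz
  rw [e2, abs_neg, abs_of_pos e3] at e1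
  have e5 : 2 ≤ ‖pw α γ z / T‖ := h1.le.trans (Complex.re_le_norm _)
  have e6 : 0 ≤ Real.log ‖pw α γ z / T‖ := Real.log_nonneg (by linarith)
  have e7 : Real.log ‖pw α γ z / T‖ ≤ z.re := by
    have e8 : ‖pw α γ z / T‖ ≤ Real.exp z.re := by
      have : ‖pw α γ z / T‖ ≤ ‖pw α γ z / T‖ * T := le_mul_of_one_le_right hσ.le hT1
      linarith
    have := Real.log_le_log hσ e8
    rwa [Real.log_exp] at this
  rw [abs_of_nonneg e6] at e1
  linarith

set_option maxHeartbeats 4000000 in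
/-- **the law for the means**: uniformly for `e^(-T) ≤ α ≤ α₀` -/
theorem um_main [Countable ι] (D : SData lam c G)
    (hser : ∀ w : ℂ, 2 ≤ w.re → DifferentiableAt ℂ (ser lam c) w) (hγ : Real.pi < γ)
    {m : ℤ} {r₀ : ℂ} {η B : ℝ} {L : ℂ → ℂ} (hL : Bel m r₀ η B L)
    (hL2 : ∀ w : ℂ, w.re = 2 → -η ≤ w.im → w.im < 0 → G w - ser lam c w = L w) :
    ∃ α₀ C : ℝ, 0 < α₀ ∧ ∀ α T : ℝ, 0 < α → α ≤ α₀ → 1 ≤ T → Real.exp (-T) ≤ α →
      ‖um lam c α γ T - m * Real.log T‖ ≤ C := by
  obtain ⟨CG, hCG⟩ := D.Gb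
  have hpi := Real.pi_gt_three
  have hη := hL.hη
  have hB := hL.hB
  have hγπ : 0 < γ + Real.pi := by linarith
  set S2 : ℝ := ∑' i, |c i| * Real.exp (-(2 * lam i)) with hS2
  have hS20 : 0 ≤ S2 := tsum_nonneg fun i => by positivity
  set c₁ : ℝ := |Real.log ((γ - Real.pi) / 2)| with hc₁
  have hc₁0 : 0 ≤ c₁ := abs_nonneg _
  set α₀ : ℝ := 2 / 5 * min 1 η / (γ + Real.pi) with hα₀
  have hmin : 0 < min 1 η := lt_min one_pos hη
  have hα₀0 : 0 < α₀ := by rw [hα₀]; positivity
  set M : ℝ := |CG| + S2 + 2 * |(m : ℝ)| + ‖r₀‖ + 3 * B * (8 + 3 * c₁) with hM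
  have hM0 : 0 ≤ M := by positivity
  refine ⟨α₀, (Real.exp 1 + 1) * M + |(m : ℝ)| * (‖J 0 (fun z => z)‖ + γ) + (Real.exp 1 + 1) * |CG|,
    hα₀0, fun α T hα0 hα1 hT1 hαT => ?_⟩
  have hT0 : 0 < T := by linarith
  have hTc : (T : ℂ) ≠ 0 := by exact_mod_cast hT0.ne'
  have hαg : α * (γ + Real.pi) ≤ 2 / 5 * min 1 η := by
    have := mul_le_mul_of_nonneg_right hα1 hγπ.le
    rw [hα₀, div_mul_cancel₀ _ hγπ.ne'] at this
    exact this
  have h : Ok α γ := ⟨hα0, hγ, by
    have := min_le_left 1 η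
    linarith⟩
  have hα15 := h.α_le
  have hγ0 : 0 < γ := by linarith
  set s : ℂ → ℂ := fun z => pw α γ z / T with hs
  have hsd : Differentiable ℂ s := (pw_differentiable α γ).div_const _
  have hsre : ∀ z : ℂ, (s z).re = (pw α γ z).re / T := fun z => by rw [hs]; simp
  have hsn : ∀ z : ℂ, ‖s z‖ = Real.exp (α * z.re) / T := fun z => by
    rw [hs]
    simp only
    rw [norm_div, norm_pw, Complex.norm_real, Real.norm_eq_abs, abs_of_pos hT0]
  -- the facts on the half strip
  have hgeo : Geo α γ T η := geo h hT0 (by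
    have := min_le_right 1 η
    linarith)
  have hs1 : ∀ z ∈ HS 0, 9 / 10 * ‖s z‖ ≤ (s z).re := hgeo.s1
  have hsn0 : ∀ z : ℂ, 0 < ‖s z‖ := hgeo.sn0
  have hs0 : ∀ z ∈ HS 0, 0 < (s z).re := hgeo.s0
  have hs2 : ∀ z ∈ HS 0, (s z).re ≤ 2 → ‖s z‖ ≤ 20 / 9 := hgeo.s2
  have hsi0 : ∀ z ∈ HS 0, (s z).im < 0 := hgeo.si0
  have hsi1 : ∀ z ∈ HS 0, (s z).re ≤ 2 → -η < (s z).im := hgeo.si1
  have hsG : ∀ z ∈ HS 0, ‖G (s z)‖ ≤ |CG| := fun z hz => by
    refine (hCG _ (hs0 z hz) ?_).trans (le_abs_self _)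
    have := hs1 z hz
    have := hsn0 z
    linarith
  set Lt : ℂ → ℂ := glue L (fun w => G w - ser lam c w) with hLt
  have hLd : ∀ z ∈ HS 0, DifferentiableAt ℂ (fun z => Lt (s z)) z := by
    intro z hz
    refine DifferentiableAt.comp (g := Lt) (f := s) z ?_ (hsd z)
    by_cases h1 : (s z).re ≤ 2
    · have h2 := hsi1 z hz h1
      have h3 := hsi0 z hz
      refine glue_diff (U := Ioo (-η) 0) isOpen_Ioo ⟨h2, h3⟩
        (fun _ => hL.diff _ (hs0 z hz) h1 h2.le h3)
        (fun h4 => (D.Gd _ (hs0 z hz)).sub (hser _ h4))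
        fun v hv hv2 => hL2 v hv hv2.1.le hv2.2
    · push Not at h1
      have ho : IsOpen {v : ℂ | 2 < v.re} := isOpen_lt continuous_const Complex.continuous_re
      refine ((D.Gd _ (hs0 z hz)).sub (hser _ h1.le)).congr_of_eventuallyEq ?_
      filter_upwards [ho.mem_nhds h1] with v hv
      rw [hLt]
      unfold glue
      rw [if_neg (not_le.2 hv)]
      rfl
  -- the logarithm
  have hlog : ∀ z ∈ HS 0, log (s z) = α * (z - γ * I) - Real.log T := fun z hz =>
    log_pw_div h hT0 hz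
  -- the remainder
  set R : ℂ → ℂ := fun z => Lt (s z) - m * log (s z) with hR
  have hRb : ∀ z ∈ HS 0, ‖R z‖ ≤ M * (1 + min (Real.exp z.re) (3 * T)) + |(m : ℝ)| * z.re ∧
      ‖R z‖ ≤ M * Real.exp z.re := by
    intro z hz
    have hx : 0 ≤ z.re := hz.1
    have hσ := hsn0 z
    have hσT : ‖s z‖ * T = Real.exp (α * z.re) := by rw [hsn]; field_simp
    have hex : Real.exp (α * z.re) ≤ Real.exp z.re := Real.exp_le_exp.2 (by nlinarith)
    have he1 : 1 ≤ Real.exp z.re := Real.one_le_exp hx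
    have hr0 : 0 ≤ ‖r₀‖ := norm_nonneg _
    have hq : 0 ≤ 3 * B * (8 + 3 * c₁) := by positivity
    have hm0 : 0 ≤ |(m : ℝ)| := abs_nonneg _
    have hC0 : 0 ≤ |CG| := abs_nonneg _
    by_cases h1 : (s z).re ≤ 2
    · have h2 := hs2 z hz h1
      have h10 : R z = L (s z) - m * log (s z) := by
        rw [hR]
        simp only
        rw [hLt]
        unfold glue
        rw [if_pos h1]
      have h11 : ‖R z‖ ≤ 3 * B * (7 + Real.exp (α * z.re) + 3 * c₁) + ‖r₀‖ := by
        rw [h10]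
        exact rem_near h hL hT1 hαT hgeo hz h1
      have hMM : 3 * B * (8 + 3 * c₁) + ‖r₀‖ ≤ M := by
        rw [hM]
        have : 0 ≤ |CG| + S2 + 2 * |(m : ℝ)| := by positivity
        linarith
      have key : ∀ E : ℝ, 7 + Real.exp (α * z.re) + 3 * c₁ ≤ (8 + 3 * c₁) * E → 1 ≤ E →
          ‖R z‖ ≤ M * E := by
        intro E hE hE0
        have e1 : 3 * B * (7 + Real.exp (α * z.re) + 3 * c₁) ≤ 3 * B * (8 + 3 * c₁) * E := by
          calc 3 * B * (7 + Real.exp (α * z.re) + 3 * c₁) ≤ 3 * B * ((8 + 3 * c₁) * E) := by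
                gcongr
            _ = _ := by ring
        have e2 : ‖r₀‖ ≤ ‖r₀‖ * E := le_mul_of_one_le_right hr0 hE0
        calc ‖R z‖ ≤ (3 * B * (8 + 3 * c₁) + ‖r₀‖) * E := by
              rw [add_mul]; linarith
          _ ≤ M * E := by gcongr
      constructor
      · have e1 : Real.exp (α * z.re) ≤ min (Real.exp z.re) (3 * T) := le_min hex (by
          rw [← hσT]
          exact mul_le_mul_of_nonneg_right (by linarith) hT0.le)
        have e2 : 0 ≤ min (Real.exp z.re) (3 * T) := by positivity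
        have h12 := key (1 + min (Real.exp z.re) (3 * T)) (by
          nlinarith [mul_nonneg hc₁0 e2]) (by linarith)
        have : 0 ≤ |(m : ℝ)| * z.re := by positivity
        linarith
      · exact key (Real.exp z.re) (by nlinarith) he1
    · push Not at h1
      have h2 : R z = G (s z) - ser lam c (s z) - m * log (s z) := by
        rw [hR]
        simp only
        rw [hLt]
        unfold glue
        rw [if_neg (not_le.2 h1)]
      have h3 := hsG z hz
      have h4 := D.ser_le h1.le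
      rw [← hS2] at h4
      have h5 : ‖log (s z)‖ ≤ z.re + 1 := log_far h hT1 hgeo hz h1
      have h6 : ‖R z‖ ≤ |CG| + S2 + |(m : ℝ)| * (z.re + 1) := by
        rw [h2]
        refine (norm_sub_le _ _).trans (add_le_add ((norm_sub_le _ _).trans (add_le_add h3 h4)) ?_)
        rw [norm_mul, Complex.norm_intCast]
        gcongr
      have h9 : |CG| + S2 + |(m : ℝ)| ≤ M := by rw [hM]; linarith
      constructor
      · have h7 : M ≤ M * (1 + min (Real.exp z.re) (3 * T)) :=
          le_mul_of_one_le_right hM0 (by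
            have : 0 ≤ min (Real.exp z.re) (3 * T) := by positivity
            linarith)
        linarith
      · have h7 : z.re + 1 ≤ Real.exp z.re := Real.add_one_le_exp _
        calc ‖R z‖ ≤ |CG| + S2 + |(m : ℝ)| * Real.exp z.re := by
              refine h6.trans ?_
              gcongr
          _ ≤ (|CG| + S2) * Real.exp z.re + |(m : ℝ)| * Real.exp z.re := by
              have : |CG| + S2 ≤ (|CG| + S2) * Real.exp z.re :=
                le_mul_of_one_le_right (by positivity) he1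
              linarith
          _ = (|CG| + S2 + |(m : ℝ)|) * Real.exp z.re := by ring
          _ ≤ M * Real.exp z.re := by gcongr
  -- admissibility
  have hJR := norm_J_exp_le (Φ := R) (M := M) fun z hz => (hRb z hz).2
  have hLc : ContinuousOn (fun z => Lt (s z)) (HS 0) := fun z hz =>
    (hLd z hz).continuousAt.continuousWithinAt
  have hlc : ContinuousOn (fun z => log (s z)) (HS 0) := by
    refine ContinuousOn.congr (f := fun z : ℂ => (α : ℂ) * (z - γ * I) - Real.log T) (by fun_prop)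
      fun z hz => hlog z hz
  have admR : Adm 0 R := by
    refine ⟨hLc.sub (continuousOn_const.mul hlc), M * (1 + 3 * T), |(m : ℝ)|, by positivity,
      abs_nonneg _, fun z hz => ((hRb z hz).1).trans ?_⟩
    have := min_le_right (Real.exp z.re) (3 * T)
    gcongr
  have admid : Adm 0 (fun z : ℂ => z) := by
    refine ⟨continuousOn_id, Real.pi, 1, Real.pi_pos.le, zero_le_one, fun z hz => ?_⟩
    have := Complex.norm_le_abs_re_add_abs_im z
    rw [abs_of_nonneg hz.1] at this
    have := hz.2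
    linarith
  have admone : ∀ k : ℂ, Adm 0 (fun _ : ℂ => k) := fun k =>
    ⟨continuousOn_const, ‖k‖, 0, norm_nonneg _, le_rfl, fun z _ => by simp⟩
  have admlog : Adm 0 (fun z => log (s z)) := by
    refine ⟨hlc, α * Real.pi + α * γ + |Real.log T|, α, by positivity, hα0.le, fun z hz => ?_⟩
    rw [hlog z hz]
    refine (norm_sub_le _ _).trans ?_
    rw [norm_mul, Complex.norm_real, Complex.norm_real, Real.norm_eq_abs, Real.norm_eq_abs,
      abs_of_pos hα0]
    have e1 : ‖z - γ * I‖ ≤ z.re + Real.pi + γ := by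
      refine (norm_sub_le _ _).trans ?_
      have e2 := Complex.norm_le_abs_re_add_abs_im z
      rw [abs_of_nonneg hz.1] at e2
      have e3 := hz.2
      rw [norm_mul, Complex.norm_I, mul_one, Complex.norm_real, Real.norm_eq_abs,
        abs_of_pos (by linarith : 0 < γ)]
      linarith
    calc α * ‖z - γ * I‖ + |Real.log T| ≤ α * (z.re + Real.pi + γ) + |Real.log T| := by gcongr
      _ = _ := by ring
  have admG : Adm 0 (fun z => G (s z)) := by
    refine ⟨fun z hz => ?_, |CG|, 0, abs_nonneg _, le_rfl, fun z hz => by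
      have := hsG z hz; linarith⟩
    have h4 : DifferentiableAt ℂ (fun z => G (s z)) z :=
      DifferentiableAt.comp (g := G) (f := s) z (D.Gd _ (hs0 z hz)) (hsd z)
    exact h4.continuousAt.continuousWithinAt
  have hGd : DifferentiableOn ℂ (fun z => G (s z)) (HS 0) := fun z hz =>
    (DifferentiableAt.comp (g := G) (f := s) z (D.Gd _ (hs0 z hz)) (hsd z)).differentiableWithinAt
  have admL : Adm 0 (fun z => Lt (s z)) := by
    obtain ⟨A1, B1, hA1, hB1, hb1⟩ := admR.bound
    obtain ⟨A2, B2, hA2, hB2, hb2⟩ := admlog.bound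
    refine ⟨hLc, A1 + |(m : ℝ)| * A2, B1 + |(m : ℝ)| * B2, by positivity, by positivity,
      fun z hz => ?_⟩
    have e1 : Lt (s z) = R z + m * log (s z) := by rw [hR]; ring
    rw [e1]
    refine (norm_add_le _ _).trans ?_
    rw [norm_mul, Complex.norm_intCast]
    have e2 := hb1 z hz
    have e3 := hb2 z hz
    calc ‖R z‖ + |(m : ℝ)| * ‖log (s z)‖ ≤ (A1 + B1 * z.re) + |(m : ℝ)| * (A2 + B2 * z.re) := by
          gcongr
      _ = _ := by ring
  -- the far contour
  obtain ⟨b, hb0, hb⟩ : ∃ b : ℝ, 0 ≤ b ∧ 2 * T ≤ 9 / 10 * Real.exp (α * b) := by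
    refine ⟨(3 * T) / α, by positivity, ?_⟩
    rw [mul_div_cancel₀ _ hα0.ne']
    have := Real.add_one_le_exp (3 * T)
    linarith
  obtain ⟨E1, -⟩ := um_eq D h hT1 hb0 hb
  have E2 : J b (fun z => ser lam c (pw α γ z / T)) = J b (fun z => G (s z) - Lt (s z)) := by
    refine J_congr fun z hz => ?_
    have hz0 : z ∈ HS 0 := HS_mono hb0 hz
    have h2 : 2 ≤ (s z).re := by
      rw [hsre, le_div_iff₀ hT0]
      have h2 := h.re_ge hz
      have h3 : Real.exp (α * b) ≤ Real.exp (α * z.re) :=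
        Real.exp_le_exp.2 (mul_le_mul_of_nonneg_left hz.1 hα0.le)
      linarith
    change ser lam c (s z) = G (s z) - Lt (s z)
    rw [hLt]
    unfold glue
    split_ifs with h3
    · rw [← hL2 (s z) (le_antisymm h3 h2) (hsi1 z hz0 h3).le (hsi0 z hz0)]
      ring
    · ring
  have E3 : J 0 (fun z => G (s z) - Lt (s z)) = J b (fun z => G (s z) - Lt (s z)) := by
    refine J_shift' le_rfl hb0 ?_ ?_
    · obtain ⟨A1, B1, hA1, hB1, hb1⟩ := admG.bound
      obtain ⟨A2, B2, hA2, hB2, hb2⟩ := admL.bound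
      refine ⟨admG.cont.sub admL.cont, A1 + A2, B1 + B2, by positivity, by positivity,
        fun z hz => (norm_sub_le _ _).trans ?_⟩
      have e2 := hb1 z hz
      have e3 := hb2 z hz
      linarith
    · exact hGd.sub fun z hz => (hLd z hz).differentiableWithinAt
  have E4 : J 0 (fun z => G (s z) - Lt (s z)) = J 0 (fun z => G (s z)) - J 0 (fun z => Lt (s z)) :=
    J_sub le_rfl admG admL
  have E5 : J 0 R = J 0 (fun z => Lt (s z)) - m * J 0 (fun z => log (s z)) := by
    have e1 : Adm 0 (fun z => (m : ℂ) * log (s z)) := by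
      obtain ⟨A2, B2, hA2, hB2, hb2⟩ := admlog.bound
      refine ⟨continuousOn_const.mul hlc, |(m : ℝ)| * A2, |(m : ℝ)| * B2, by positivity,
        by positivity, fun z hz => ?_⟩
      rw [norm_mul, Complex.norm_intCast]
      have e3 := hb2 z hz
      calc |(m : ℝ)| * ‖log (s z)‖ ≤ |(m : ℝ)| * (A2 + B2 * z.re) := by gcongr
        _ = _ := by ring
    rw [← J_const_mul, hR]
    exact J_sub le_rfl admL e1
  have hone : J 0 (fun _ : ℂ => (1 : ℂ)) = 1 := by
    have := J_exp_zero 0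
    simpa using this
  have E6 : J 0 (fun z => log (s z)) = α * J 0 (fun z => z) - (α * γ * I + Real.log T) := by
    have e1 : J 0 (fun z => log (s z)) =
        J 0 (fun z => (α : ℂ) * z - (α * γ * I + Real.log T) * 1) := by
      refine J_congr fun z hz => ?_
      rw [hlog z hz]
      ring
    have e2 : Adm 0 (fun z : ℂ => (α : ℂ) * z) := by
      obtain ⟨A2, B2, hA2, hB2, hb2⟩ := admid.bound
      refine ⟨by fun_prop, α * A2, α * B2, by positivity, by positivity, fun z hz => ?_⟩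
      rw [norm_mul, Complex.norm_real, Real.norm_eq_abs, abs_of_pos hα0]
      have e3 := hb2 z hz
      calc α * ‖z‖ ≤ α * (A2 + B2 * z.re) := by gcongr
        _ = _ := by ring
    rw [e1, J_sub le_rfl e2 (by simpa using admone (α * γ * I + Real.log T)), J_const_mul,
      J_const_mul, hone, mul_one]
  have hJG := norm_J_exp_le (Φ := fun z => G (s z)) (M := |CG|) fun z hz => by
    have e1 := hsG z hz
    have e2 : |CG| ≤ |CG| * Real.exp z.re :=
      le_mul_of_one_le_right (abs_nonneg _) (Real.one_le_exp hz.1)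
    linarith
  have E7 : um lam c α γ T - m * Real.log T = -J 0 R - m * (α * J 0 (fun z => z) - α * γ * I) +
      J 0 (fun z => G (s z)) := by
    rw [← E1, E2, ← E3, E4]
    linear_combination E5 - m * E6
  rw [E7]
  refine (norm_add_le _ _).trans (add_le_add ?_ hJG)
  refine (norm_sub_le _ _).trans (add_le_add ?_ ?_)
  · rw [norm_neg]
    exact hJR
  · rw [norm_mul, Complex.norm_intCast]
    refine mul_le_mul_of_nonneg_left ?_ (abs_nonneg _)
    refine (norm_sub_le _ _).trans ?_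
    rw [norm_mul, norm_mul, norm_mul, Complex.norm_I, Complex.norm_real, Complex.norm_real,
      Real.norm_eq_abs, Real.norm_eq_abs, abs_of_pos hα0, abs_of_pos (by linarith : 0 < γ), mul_one]
    have hg0 : 0 < γ := by linarith
    have : 0 ≤ ‖J 0 (fun z => z)‖ := norm_nonneg _
    nlinarith

end Pool.Agent.TH942.UL
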