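import Pool.Agent.W187.UR.Rot

/-!
# The weights of the laws with a cut-off of logarithmic order `ρ`
-/

set_option autoImplicit false

open Complex MeasureTheory Filter Topology Set
open scoped Interval
open Pool.Agent.W189.ML

namespace Pool.Agent.TH942.UL

/-- the rotated power `(e^(z - iγ))^α` -/
noncomputable def pw (α γ : ℝ) (z : ℂ) : ℂ := exp (α * (z - γ * I))

lemma pw_differentiable (α γ : ℝ) : Differentiable ℂ (pw α γ) := by
  unfold pw
  fun_prop

/-- conditions on the parameters -/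
structure Ok (α γ : ℝ) : Prop where
  α0 : 0 < α
  γ0 : Real.pi < γ
  le : α * (γ + Real.pi) ≤ 2 / 5

variable {α γ : ℝ}

lemma Ok.α_le (h : Ok α γ) : α ≤ 1 / 15 := by
  have h1 := Real.pi_gt_three
  have h2 := h.le
  have h3 := h.γ0
  have h4 := h.α0
  nlinarith

lemma pw_re (z : ℂ) : (pw α γ z).re = Real.exp (α * z.re) * Real.cos (α * (γ - z.im)) := by
  unfold pw
  rw [Complex.exp_re]
  have h1 : ((α : ℂ) * (z - γ * I)).re = α * z.re := by simp
  have h2 : ((α : ℂ) * (z - γ * I)).im = -(α * (γ - z.im)) := by simp; ring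
  rw [h1, h2, Real.cos_neg]

lemma pw_im (z : ℂ) : (pw α γ z).im = -(Real.exp (α * z.re) * Real.sin (α * (γ - z.im))) := by
  unfold pw
  rw [Complex.exp_im]
  have h1 : ((α : ℂ) * (z - γ * I)).re = α * z.re := by simp
  have h2 : ((α : ℂ) * (z - γ * I)).im = -(α * (γ - z.im)) := by simp; ring
  rw [h1, h2, Real.sin_neg]
  ring

lemma norm_pw (z : ℂ) : ‖pw α γ z‖ = Real.exp (α * z.re) := by
  unfold pw
  rw [Complex.norm_exp]
  simp

/-- the angle -/
lemma Ok.angle (h : Ok α γ) {z : ℂ} {a : ℝ} (hz : z ∈ HS a) :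
    α * (γ - Real.pi) ≤ α * (γ - z.im) ∧ 0 < α * (γ - z.im) ∧ α * (γ - z.im) ≤ 2 / 5 := by
  have h1 := abs_le.1 hz.2
  have h2 := h.α0
  have h3 := h.γ0
  have h4 := h.le
  refine ⟨by nlinarith, mul_pos h2 (by linarith), ?_⟩
  nlinarith [h1.1]

lemma cos_ge {θ : ℝ} (h0 : 0 < θ) (h1 : θ ≤ 2 / 5) : 9 / 10 ≤ Real.cos θ := by
  have := Real.one_sub_sq_div_two_le_cos (x := θ)
  nlinarith

lemma sin_ge {θ : ℝ} (h0 : 0 < θ) (h1 : θ ≤ 2 / 5) : θ / 2 ≤ Real.sin θ := by
  have := Real.sin_gt_sub_cube h0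
  have h2 : θ ^ 3 ≤ θ := by nlinarith [mul_pos h0 h0]
  linarith

lemma Ok.re_ge (h : Ok α γ) {z : ℂ} {a : ℝ} (hz : z ∈ HS a) :
    9 / 10 * Real.exp (α * z.re) ≤ (pw α γ z).re := by
  obtain ⟨-, h1, h2⟩ := h.angle hz
  rw [pw_re, mul_comm]
  exact mul_le_mul_of_nonneg_left (cos_ge h1 h2) (Real.exp_pos _).le

/-- the complex weight -/
noncomputable def wc (α γ u : ℝ) : ℂ := J 0 (fun z => exp (-(u * pw α γ z)))

/-- the weight, as a power series -/
noncomputable def wt (α γ u : ℝ) : ℝ :=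
  ∑' k : ℕ, (-u) ^ k * Real.cos (γ * (k * α)) / (k.factorial * Real.Gamma (1 - k * α))

/-- the terms of the exponential series -/
noncomputable def et (α γ u : ℝ) (k : ℕ) (z : ℂ) : ℂ :=
  ((-u : ℝ) : ℂ) ^ k / (k.factorial : ℂ) * pw α γ z ^ k

lemma hasSum_exp (α γ u : ℝ) (z : ℂ) :
    HasSum (fun k : ℕ => et α γ u k z) (exp (-(u * pw α γ z))) := by
  have h1 := NormedSpace.expSeries_div_hasSum_exp (-(u * pw α γ z))
  rw [← Complex.exp_eq_exp_ℂ] at h1
  refine h1.congr_fun ?_
  intro k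
  unfold et
  push_cast
  rw [show -((u : ℂ) * pw α γ z) = (-(u : ℂ)) * pw α γ z by ring, mul_pow]
  ring

lemma et_continuous (α γ u : ℝ) (k : ℕ) : Continuous (et α γ u k) := by
  unfold et
  have := (pw_differentiable α γ).continuous
  fun_prop

/-- the bound for the terms -/
noncomputable def eb (α u : ℝ) (k : ℕ) (x : ℝ) : ℝ := (|u| * Real.exp (α * x)) ^ k / k.factorial

lemma norm_et (u : ℝ) (k : ℕ) (z : ℂ) : ‖et α γ u k z‖ = eb α u k z.re := by
  unfold et eb
  rw [norm_mul, norm_div, norm_pow, norm_pow, Complex.norm_real, Real.norm_eq_abs, abs_neg,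
    norm_pw, Complex.norm_natCast, mul_pow]
  ring

lemma hasSum_eb (α u x : ℝ) : HasSum (fun k => eb α u k x) (Real.exp (|u| * Real.exp (α * x))) := by
  have h1 := NormedSpace.expSeries_div_hasSum_exp (|u| * Real.exp (α * x))
  rwa [← Real.exp_eq_exp_ℝ] at h1

lemma eb_continuous (α u : ℝ) (k : ℕ) : Continuous (eb α u k) := by
  unfold eb
  fun_prop

/-- integrability of the majorant -/
lemma maj_int {a : ℝ} (ha : 0 ≤ a) (hα : 0 < α) (hα1 : α ≤ 1 / 2) (u : ℝ) :
    IntegrableOn (fun x : ℝ => Real.exp (-Real.exp x) * Real.exp (|u| * Real.exp (α * x)))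
      (Ioi a) := by
  have h0 : IntegrableOn (fun x : ℝ => Real.exp (u ^ 2 / 2) * Real.exp (-(1 / 2) * x)) (Ioi a) := by
    refine Integrable.const_mul ?_ _
    have := integrableOn_exp_mul_Ioi (a := -(1 / 2)) (by norm_num) a
    exact this
  refine Integrable.mono' h0 (by fun_prop) ?_
  filter_upwards [ae_restrict_mem measurableSet_Ioi] with x hx
  have hx0 : 0 ≤ x := ha.trans (le_of_lt hx)
  rw [Real.norm_eq_abs, abs_of_pos (by positivity), ← Real.exp_add, ← Real.exp_add]
  apply Real.exp_le_exp.2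
  have h1 : Real.exp (α * x) ≤ Real.exp (x / 2) := Real.exp_le_exp.2 (by nlinarith)
  have h2 : Real.exp x = Real.exp (x / 2) ^ 2 := by
    rw [← Real.exp_nat_mul]
    congr 1
    push_cast
    ring
  have h3 : |u| * Real.exp (α * x) ≤ |u| * Real.exp (x / 2) :=
    mul_le_mul_of_nonneg_left h1 (abs_nonneg _)
  have h4 := Real.add_one_le_exp x
  have h5 : |u| * Real.exp (x / 2) ≤ u ^ 2 / 2 + Real.exp (x / 2) ^ 2 / 2 := by
    have := sq_nonneg (|u| - Real.exp (x / 2))
    have h6 := sq_abs u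
    nlinarith
  linarith

lemma hpi2 : (2 * Real.pi)⁻¹ ≤ 1 / 2 := by
  rw [inv_le_comm₀ (by positivity) (by norm_num)]
  have := Real.pi_gt_three
  norm_num
  linarith

lemma norm_2pi : ‖(2 * Real.pi * I : ℂ)‖ = 2 * Real.pi := by
  rw [norm_mul, norm_mul, Complex.norm_I, Complex.norm_real, Real.norm_eq_abs,
    abs_of_pos Real.pi_pos]
  norm_num

lemma norm_rho_le2 {Φ : ℂ → ℂ} {x M : ℝ} (h1 : ‖Φ (x + Real.pi * I)‖ ≤ M)
    (h2 : ‖Φ (x - Real.pi * I)‖ ≤ M) : ‖rho Φ x‖ ≤ Real.exp (-Real.exp x) * M := by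
  unfold rho
  rw [norm_mul, norm_mul, norm_inv, Complex.norm_real, Real.norm_eq_abs, Real.abs_exp, norm_2pi]
  have h4 : ‖Φ (x + Real.pi * I) - Φ (x - Real.pi * I)‖ ≤ 2 * M :=
    (norm_sub_le _ _).trans (by linarith)
  have hM : 0 ≤ M := (norm_nonneg _).trans h1
  calc (2 * Real.pi)⁻¹ * (Real.exp (-Real.exp x) * ‖Φ (x + Real.pi * I) - Φ (x - Real.pi * I)‖)
      ≤ (1 / 2) * (Real.exp (-Real.exp x) * (2 * M)) := by
        have := hpi2
        gcongr
    _ = _ := by ring

/-- the contour integral of the exponential series -/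
theorem hasSum_J {a : ℝ} (ha : 0 ≤ a) (hα : 0 < α) (hα1 : α ≤ 1 / 2) (u : ℝ) :
    HasSum (fun k => J a (et α γ u k)) (J a (fun z => exp (-(u * pw α γ z)))) := by
  have hV : HasSum (fun k => V a (et α γ u k)) (V a (fun z => exp (-(u * pw α γ z)))) := by
    unfold V
    refine HasSum.mul_left _ ?_
    refine intervalIntegral.hasSum_integral_of_dominated_convergence
      (fun k _ => Real.exp (Real.exp a) * eb α u k a) (fun k => ?_) (fun k => ?_) ?_ ?_ ?_
    · refine Continuous.aestronglyMeasurable ?_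
      have := et_continuous α γ u k
      have := continuous_K
      fun_prop
    · refine ae_of_all _ fun y _ => ?_
      rw [norm_mul, norm_et]
      have h1 : ((a : ℂ) + y * I).re = a := by simp
      rw [h1]
      have : 0 ≤ eb α u k a := by unfold eb; positivity
      exact mul_le_mul_of_nonneg_right (norm_K_le a y) this
    · refine ae_of_all _ fun y _ => ((hasSum_eb α u a).mul_left _).summable
    · simp only [tsum_mul_left]
      exact continuous_const.intervalIntegrable _ _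
    · refine ae_of_all _ fun y _ => ?_
      exact (hasSum_exp α γ u _).mul_left _
  have hR : HasSum (fun k => ∫ x in Ioi a, rho (et α γ u k) x)
      (∫ x in Ioi a, rho (fun z => exp (-(u * pw α γ z))) x) := by
    refine hasSum_integral_of_dominated_convergence
      (fun k x => Real.exp (-Real.exp x) * eb α u k x) (fun k => ?_) (fun k => ?_) ?_ ?_ ?_
    · refine Continuous.aestronglyMeasurable ?_
      unfold rho
      have := et_continuous α γ u k
      fun_prop
    · refine ae_of_all _ fun x => ?_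
      refine norm_rho_le2 ?_ ?_
      · rw [norm_et]; simp
      · rw [norm_et]; simp
    · exact ae_of_all _ fun x => ((hasSum_eb α u x).mul_left _).summable
    · simp only [tsum_mul_left]
      have h1 : (fun x : ℝ => Real.exp (-Real.exp x) * ∑' k, eb α u k x) =
          fun x => Real.exp (-Real.exp x) * Real.exp (|u| * Real.exp (α * x)) := by
        funext x
        rw [(hasSum_eb α u x).tsum_eq]
      rw [h1]
      exact maj_int ha hα hα1 u
    · refine ae_of_all _ fun x => ?_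
      unfold rho
      exact (((hasSum_exp α γ u _).sub (hasSum_exp α γ u _)).mul_left _).mul_left _
  exact hV.add hR

lemma J_et (a α γ u : ℝ) (k : ℕ) : J a (et α γ u k) =
    ((-u : ℝ) : ℂ) ^ k / (k.factorial : ℂ) * exp (-(((γ * (k * α) : ℝ) : ℂ) * I)) *
      ((Real.Gamma (1 - k * α))⁻¹ : ℝ) := by
  have h1 : et α γ u k = fun z => (((-u : ℝ) : ℂ) ^ k / (k.factorial : ℂ) *
      exp (-(((γ * (k * α) : ℝ) : ℂ) * I))) * exp (-(z * ((-(k * α) : ℝ) : ℂ))) := by
    funext z
    unfold et pw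
    rw [← Complex.exp_nat_mul, mul_assoc _ (cexp _) (cexp _), ← Complex.exp_add]
    congr 2
    push_cast
    ring
  rw [h1, J_const_mul, J_exp, ← sub_eq_add_neg]

/-- **the weight is the real part of the contour integral** -/
theorem wt_hasSum {a : ℝ} (ha : 0 ≤ a) (hα : 0 < α) (hα1 : α ≤ 1 / 2) (u : ℝ) :
    HasSum (fun k : ℕ => (-u) ^ k * Real.cos (γ * (k * α)) / (k.factorial * Real.Gamma (1 - k * α)))
      (J a (fun z => exp (-(u * pw α γ z)))).re := by
  have h1 := hasSum_J (γ := γ) ha hα hα1 u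
  have h2 := Complex.reCLM.hasSum h1
  refine h2.congr_fun ?_
  intro k
  simp only [Complex.reCLM_apply]
  rw [J_et, Complex.re_mul_ofReal]
  have h3 : (((-u : ℝ) : ℂ) ^ k / (k.factorial : ℂ) * exp (-(((γ * (k * α) : ℝ) : ℂ) * I))).re =
      (-u) ^ k / k.factorial * Real.cos (γ * (k * α)) := by
    have h4 : ((-u : ℝ) : ℂ) ^ k / (k.factorial : ℂ) = (((-u) ^ k / k.factorial : ℝ) : ℂ) := by
      push_cast
      rfl
    rw [h4, Complex.re_ofReal_mul]
    congr 1
    rw [Complex.exp_re]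
    simp
  rw [h3]
  field_simp

theorem wt_eq {a : ℝ} (ha : 0 ≤ a) (hα : 0 < α) (hα1 : α ≤ 1 / 2) (u : ℝ) :
    wt α γ u = (J a (fun z => exp (-(u * pw α γ z)))).re :=
  (wt_hasSum ha hα hα1 u).tsum_eq

lemma Ok.adm_exp (h : Ok α γ) {u a : ℝ} (hu : 0 ≤ u) :
    Adm a (fun z => exp (-(u * pw α γ z))) := by
  refine ⟨?_, 1, 0, zero_le_one, le_rfl, fun z hz => ?_⟩
  · have := (pw_differentiable α γ).continuous
    fun_prop
  · rw [Complex.norm_exp, zero_mul, add_zero]
    apply Real.exp_le_one_iff.2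
    rw [Complex.neg_re, Complex.re_ofReal_mul]
    have := h.re_ge hz
    have h2 : 0 < Real.exp (α * z.re) := Real.exp_pos _
    have : 0 ≤ u * (pw α γ z).re := mul_nonneg hu (by linarith)
    linarith

lemma Ok.wc_eq (h : Ok α γ) {u a : ℝ} (hu : 0 ≤ u) (ha : 0 ≤ a) :
    wc α γ u = J a (fun z => exp (-(u * pw α γ z))) := by
  refine J_shift' le_rfl ha (h.adm_exp hu) ?_
  have := pw_differentiable α γ
  exact Differentiable.differentiableOn (by fun_prop)

lemma Ok.wt_eq_re (h : Ok α γ) (u : ℝ) : wt α γ u = (wc α γ u).re :=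
  wt_eq le_rfl h.α0 (by have := h.α_le; linarith) u

/-- **decay of the weights** -/
theorem Ok.norm_wc_le (h : Ok α γ) {u a : ℝ} (hu : 0 ≤ u) (ha : 0 ≤ a) :
    ‖wc α γ u‖ ≤ (Real.exp (Real.exp a) + 1) * Real.exp (-(9 / 10 * u * Real.exp (α * a))) := by
  rw [h.wc_eq hu ha]
  refine norm_J_le ha fun z hz => ?_
  rw [Complex.norm_exp]
  apply Real.exp_le_exp.2
  rw [Complex.neg_re, Complex.re_ofReal_mul]
  have h1 := h.re_ge hz
  have h2 : Real.exp (α * a) ≤ Real.exp (α * z.re) :=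
    Real.exp_le_exp.2 (mul_le_mul_of_nonneg_left hz.1 h.α0.le)
  have h3 : u * (9 / 10 * Real.exp (α * a)) ≤ u * (pw α γ z).re :=
    mul_le_mul_of_nonneg_left (by linarith) hu
  linarith

theorem Ok.abs_wt_le (h : Ok α γ) {u a : ℝ} (hu : 0 ≤ u) (ha : 0 ≤ a) :
    |wt α γ u| ≤ (Real.exp (Real.exp a) + 1) * Real.exp (-(9 / 10 * u * Real.exp (α * a))) := by
  rw [h.wt_eq_re]
  exact (Complex.abs_re_le_norm _).trans (h.norm_wc_le hu ha)

/-- bound for the contour integral of a function of exponential growth -/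
theorem norm_J_exp_le {Φ : ℂ → ℂ} {M : ℝ} (h : ∀ z ∈ HS 0, ‖Φ z‖ ≤ M * Real.exp z.re) :
    ‖J 0 Φ‖ ≤ (Real.exp 1 + 1) * M := by
  have h0 : (0 : ℂ) ∈ HS 0 := by
    have := vert_mem (a := 0) (y := 0) (by linarith [Real.pi_pos]) Real.pi_pos.le
    simpa using this
  have hM : 0 ≤ M := by
    have := (norm_nonneg _).trans (h 0 h0)
    simpa using this
  unfold J
  refine (norm_add_le _ _).trans ?_
  have h1 := norm_V_le (a := 0) (Φ := Φ) (M := M) fun y hy => by
    have := h _ (vert_mem (a := 0) (abs_le.1 hy).1 (abs_le.1 hy).2)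
    simpa using this
  rw [Real.exp_zero] at h1
  have h2 : ‖∫ x in Ioi (0 : ℝ), rho Φ x‖ ≤ ∫ x in Ioi (0 : ℝ), M * Real.exp (-x) := by
    refine norm_integral_le_of_norm_le ((integrableOn_exp_neg_Ioi 0).const_mul _) ?_
    filter_upwards [ae_restrict_mem measurableSet_Ioi] with x hx
    have hx' : (0 : ℝ) ≤ x := le_of_lt hx
    have e1 := h _ (up_mem hx')
    have e2 := h _ (down_mem hx')
    have e3 : ((x : ℂ) + Real.pi * I).re = x := by simp
    have e4 : ((x : ℂ) - Real.pi * I).re = x := by simp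
    rw [e3] at e1
    rw [e4] at e2
    refine (norm_rho_le2 e1 e2).trans ?_
    -- `exp (-e^x) e^x ≤ e^(-x)`
    have e5 := Real.quadratic_le_exp_of_nonneg hx'
    have e6 : Real.exp (-Real.exp x) * (M * Real.exp x) = M * Real.exp (-Real.exp x + x) := by
      rw [Real.exp_add]; ring
    rw [e6]
    refine mul_le_mul_of_nonneg_left (Real.exp_le_exp.2 ?_) hM
    nlinarith [sq_nonneg (x - 1)]
  rw [integral_const_mul, integral_exp_neg_Ioi] at h2
  simp only [neg_zero, Real.exp_zero, mul_one] at h2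
  linarith

end Pool.Agent.TH942.UL
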